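import Pool.Agent.H889R3.SA.All

/-!
# The strengthened Aaronson-Ambainis inequality for the noise stable part of the variance

For `f : {-1,1}^n → ℝ` of degree at most `d` and `0 < δ ≤ 1/2` let
`σ = ∑_{S ≠ ∅} (1 - δ)^|S| f̂(S)²` be the part of the variance that survives noise of rate `δ`.
Then `‖f‖_∞ (σ / (4 d ‖f‖_∞²)) ^ (C log (1 / δ)) ≤ max_j ‖D_j f‖₂`, with an absolute constant `C`.
For constant `δ` this is polynomial in `σ`, `d` and `‖f‖_∞`.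
-/

set_option autoImplicit false

namespace Pool.Agent.Results.MP_f992e4_an.NoiseStable

theorem result : ∃ C : ℝ, 0 < C ∧ ∀ (n : ℕ) (f : (Fin n → ℤˣ) → ℝ) (d : ℕ), 1 ≤ d →
      (∀ S : Finset (Fin n), d < S.card →
        ∑ x : Fin n → ℤˣ, f x * ∏ i ∈ S, ((x i : ℤ) : ℝ) = 0) →
    ∀ δ : ℝ, 0 < δ → δ ≤ 1 / 2 → ∀ σ : ℝ,
      σ = ∑ S ∈ Finset.univ.erase (∅ : Finset (Fin n)), (1 - δ) ^ S.card
        * ((∑ x : Fin n → ℤˣ, f x * ∏ i ∈ S, ((x i : ℤ) : ℝ)) / (2 : ℝ) ^ n) ^ 2 →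
      0 < σ →
      (⨆ x : Fin n → ℤˣ, |f x|) *
        (σ / (4 * (d : ℝ) * (⨆ x : Fin n → ℤˣ, |f x|) ^ 2)) ^ (C * Real.log (1 / δ))
      ≤ ⨆ j : Fin n, Real.sqrt
          ((∑ x : Fin n → ℤˣ,
              ((f (Function.update x j 1) - f (Function.update x j (-1))) / 2) ^ 2)
            / (2 : ℝ) ^ n) :=
  Pool.Agent.H889R3.SA.mainB Pool.Agent.H889R3.SA.taskA1 Pool.Agent.H889R3.SA.taskA3
    Pool.Agent.H784R3.SA.taskB3 Pool.Agent.H889R3.SA.allG Pool.Agent.H889R3.SA.taskH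
    Pool.Agent.H889R3.SA.allI

end Pool.Agent.Results.MP_f992e4_an.NoiseStable
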